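import Pool.Agent.H77.WC.Stm

set_option autoImplicit false

namespace H64.WC

open Pool.Agent.H77.WC Filter Topology

theorem hs_mono {C D : Set ℕ} (h : D ⊆ C) (x : ℕ) : hs D x ≤ hs C x := by
  classical
  unfold hs
  apply Finset.sum_le_sum_of_subset_of_nonneg
  · intro k hk
    simp only [Finset.mem_filter] at hk ⊢
    exact ⟨hk.1, h hk.2⟩
  · intro i _ _
    positivity

theorem hs_nonneg (C : Set ℕ) (x : ℕ) : 0 ≤ hs C x := by
  classical
  unfold hs
  exact Finset.sum_nonneg (fun i _ => by positivity)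

theorem hs_split {C D : Set ℕ} (x : ℕ) : hs C x ≤ hs D x + hs (C \ D) x := by
  classical
  unfold hs
  rw [← Finset.sum_union]
  · apply Finset.sum_le_sum_of_subset_of_nonneg
    · intro k hk
      simp only [Finset.mem_union, Finset.mem_filter, Set.mem_diff] at hk ⊢
      by_cases hD : k ∈ D
      · exact Or.inl ⟨hk.1, hD⟩
      · exact Or.inr ⟨hk.1, hk.2, hD⟩
    · intro i _ _
      positivity
  · rw [Finset.disjoint_left]
    intro k hk hk'
    simp only [Finset.mem_filter, Set.mem_diff] at hk hk'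
    exact hk'.2.2 hk.2

theorem log_pos_ev : ∀ᶠ x : ℕ in atTop, 0 < Real.log (x : ℝ) := by
  filter_upwards [eventually_ge_atTop 2] with x hx
  exact Real.log_pos (by exact_mod_cast hx)

theorem lim : S_LIM := by
  intro C D d hC hD hLD hε
  have hle : ∀ C₁ C₂ : Set ℕ, ∀ d₁ d₂ : ℝ, C₁ ⊆ C₂ → LD C₁ d₁ → LD C₂ d₂ → d₁ ≤ d₂ := by
    intro C₁ C₂ d₁ d₂ h h1 h2
    refine le_of_tendsto_of_tendsto h1 h2 ?_
    filter_upwards [log_pos_ev] with x hx
    exact div_le_div_of_nonneg_right (hs_mono h x) hx.le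
  have hanti : Antitone d := fun m n hmn => hle _ _ _ _ (hC hmn) (hLD n) (hLD m)
  have hnn : ∀ n, 0 ≤ d n := by
    intro n
    refine ge_of_tendsto (hLD n) ?_
    filter_upwards [log_pos_ev] with x hx
    exact div_nonneg (hs_nonneg _ _) hx.le
  have hbdd : BddBelow (Set.range d) := ⟨0, by rintro _ ⟨n, rfl⟩; exact hnn n⟩
  set e := ⨅ n, d n with he
  have ht : Tendsto d atTop (𝓝 e) := tendsto_atTop_ciInf hanti hbdd
  have hed : ∀ n, e ≤ d n := fun n => ciInf_le hbdd n
  refine ⟨e, ht, ?_, hed⟩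
  unfold LD
  rw [Metric.tendsto_atTop]
  intro ε hε0
  obtain ⟨n₁, hn₁⟩ := hε (ε / 3) (by positivity)
  -- choose a large index for `d n` close to `e`
  obtain ⟨n₂, hn₂⟩ := (Metric.tendsto_atTop.1 ht) (ε / 3) (by positivity)
  set n := max n₁ n₂ with hn
  have h1 : ∀ x : ℕ, 1 ≤ x → hs (C n \ D) x ≤ ε / 3 * Real.log x := fun x hx =>
    le_trans (hs_mono (Set.diff_subset_diff_left (hC (le_max_left _ _))) x) (hn₁ x hx)
  have h2 : d n < e + ε / 3 := by
    have := hn₂ n (le_max_right _ _)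
    rw [Real.dist_eq, abs_lt] at this
    linarith [this.2]
  obtain ⟨M, hM⟩ := (Metric.tendsto_atTop.1 (hLD n)) (ε / 3) (by positivity)
  obtain ⟨m₂, hm₂⟩ := eventually_atTop.1 log_pos_ev
  refine ⟨max (max M m₂) 1, fun x hx => ?_⟩
  have hx1 : 1 ≤ x := le_trans (le_max_right _ _) hx
  have hxM : M ≤ x := le_trans (le_trans (le_max_left _ _) (le_max_left _ _)) hx
  have hxm : m₂ ≤ x := le_trans (le_trans (le_max_right _ _) (le_max_left _ _)) hx
  have hlog := hm₂ x hxm
  have h3 := hM x hxM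
  rw [Real.dist_eq, abs_lt] at h3
  have h4 : hs D x / Real.log x ≤ hs (C n) x / Real.log x :=
    div_le_div_of_nonneg_right (hs_mono (hD n) x) hlog.le
  have h5 : hs (C n) x / Real.log x ≤ hs D x / Real.log x + ε / 3 := by
    rw [div_le_iff₀ hlog]
    have h6 := hs_split (C := C n) (D := D) x
    have h7 := h1 x hx1
    have h8 : (hs D x / Real.log x + ε / 3) * Real.log x = hs D x + ε / 3 * Real.log x := by
      field_simp
    rw [h8]
    linarith
  rw [Real.dist_eq, abs_lt]
  have h9 := hed n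
  constructor
  · linarith [h3.1]
  · linarith [h3.2]

end H64.WC
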